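import Mathlib
import Pool.Agent.TH213.SP.FinL
import Pool.Agent.TH213.SP.BMCons

/-!
# The Brauer-Manin set of almost all quadratic twists of a split hyperelliptic curve

Let `ℓ k = α k * x + β k * w` (`k ∈ K`, `|K| = 2 g + 2 ≥ 6`) be linear forms with integral
coefficients, in general position in the sense of `Generic`, and let `C d` be the curve
`d y² = ∏ k, ℓ k (x, w)` of genus `g` over `ℚ`.  The functions `ℓ k / ℓ l` have divisors divisible
by `2`, so that the classes `(ℓ k / ℓ l, e)`, `e` a nonzero rational number, belong to the Brauer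
group of `C d`.  For all squarefree `d`, `|d| ≤ X`, with at most `C X (log X)^(-1/5)` exceptions, an
adelic point of `C d` is orthogonal to these classes only if it has, in every completion of `ℚ`,
the 2-covering type of one rational Weierstrass point `Q`.  It follows that the real component of
the point lies in the connected component of `Q`, and that it has the same reduction as `Q` modulo
all primes dividing `d` (apart from finitely many primes which do not depend on `d`).
-/

set_option autoImplicit false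

namespace Pool.Agent.Results.MP_ab3ecb_nt.ApproximationOnTwists

open Finset
open Pool.Agent.W313.BMX (Splits Fam ram IsTest)

variable {K : Type}

/-- the determinant of the `i`-th and the `k`-th linear form -/
def det (α β : K → ℤ) (i k : K) : ℤ := α i * β k - α k * β i

/-- the linear forms are pairwise independent, and for `i ≠ k` the products
`det i l * det k l`, `l ≠ i, k`, are not all in the same square class -/
def Generic (α β : K → ℤ) : Prop :=
  (∀ i k, i ≠ k → det α β i k ≠ 0) ∧
  ∀ i k, i ≠ k → ∃ l l', l ≠ i ∧ l ≠ k ∧ l' ≠ i ∧ l' ≠ k ∧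
    ¬ IsSquare (det α β i l * det α β i l' * (det α β k l * det α β k l'))

variable [Fintype K] [DecidableEq K]

/-- A point over `F` of the curve `C d : d y² = ∏ k, (α k x + β k w)` in a weighted projective
plane (`x`, `w` have weight `1`, `y` has weight `|K| / 2`). -/
structure Point (α β : K → ℤ) (d : ℤ) (F : Type) [Field F] where
  /-- the first coordinate -/
  x : F
  /-- the second coordinate -/
  w : F
  /-- the third coordinate -/
  y : F
  ne : x ≠ 0 ∨ w ≠ 0
  eq : (d : F) * y ^ 2 = ∏ k, ((α k : F) * x + β k * w)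

variable {α β : K → ℤ} {d : ℤ}

/-- the `k`-th linear form at a point -/
def form {F : Type} [Field F] (P : Point α β d F) (k : K) : F := (α k : F) * P.x + β k * P.w

open Classical in
/-- The value of the `k`-th linear form at a point, modulo squares; at a zero of the `k`-th form it
is computed from the other forms. -/
noncomputable def value {F : Type} [Field F] (P : Point α β d F) (k : K) : F :=
  if form P k ≠ 0 then form P k else d * ∏ l ∈ univ.erase k, form P l

/-- an adelic point of the curve `C d` -/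
structure AdelicPoint (α β : K → ℤ) (d : ℤ) where
  /-- the real component -/
  re : Point α β d ℝ
  /-- the `p`-adic components -/
  pa : ∀ p : Nat.Primes, Point α β d ℚ_[(p : ℕ)]

/-- The values of the function `ℓ k / ℓ l` at the components of an adelic point, modulo squares. -/
noncomputable def ratio (P : AdelicPoint α β d) (k l : K) : Fam :=
  ⟨value P.re k * value P.re l, fun p => value (P.pa p) k * value (P.pa p) l⟩

/-- The adelic point is orthogonal to the classes `(ℓ k / ℓ l, e)` of the Brauer group of `C d`,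
`e = -1`, `e = 2` or `e = ± q = 1` modulo `4`, `q` prime: the number of the places at which the
Hilbert symbol is not trivial is even, so that the sum of the invariants is zero. -/
def Orthogonal (P : AdelicPoint α β d) : Prop :=
  ∀ (k l : K) (e : ℤ), IsTest e → Even (ram (ratio P k l) e).ncard

/-- The point `P` over `F` and the rational point `Q` lift to the same 2-covering of `C d` over `F`:
the numbers `ℓ k (P) * ℓ k (Q)` are all in the same square class. -/
def SameCovering {F : Type} [Field F] (P : Point α β d F) (Q : Point α β d ℚ) : Prop :=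
  ∀ k l, IsSquare (value P k * ((value Q k : ℚ) : F) * (value P l * ((value Q l : ℚ) : F)))

/-- `P` and `Q` lift to the same 2-covering over every completion of `ℚ` -/
def SameEverywhere (P : AdelicPoint α β d) (Q : Point α β d ℚ) : Prop :=
  SameCovering P.re Q ∧ ∀ p : Nat.Primes, SameCovering (P.pa p) Q

/-- there is a path from `P` to `Q` on the curve `C d (ℝ)` -/
def Joined (P : Point α β d ℝ) (Q : Point α β d ℚ) : Prop :=
  ∃ γ : ℝ → ℝ × ℝ × ℝ, Continuous γ ∧ γ 0 = (P.x, P.w, P.y) ∧
    (∃ c : ℝ, c ≠ 0 ∧ γ 1 = (c * Q.x, c * Q.w, c ^ (Fintype.card K / 2) * Q.y)) ∧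
    ∀ t, 0 ≤ t → t ≤ 1 → ((γ t).1 ≠ 0 ∨ (γ t).2.1 ≠ 0) ∧
      (d : ℝ) * (γ t).2.2 ^ 2 = ∏ k, ((α k : ℝ) * (γ t).1 + β k * (γ t).2.1)

/-- the `x`-coordinates `(x : w)` of `P` and of `Q` have the same reduction modulo `p` -/
def SameReduction {p : ℕ} [Fact p.Prime] (P : Point α β d ℚ_[p]) (Q : Point α β d ℚ) : Prop :=
  ‖P.x * (Q.w : ℚ_[p]) - (Q.x : ℚ_[p]) * P.w‖ <
    max ‖P.x‖ ‖P.w‖ * max ‖(Q.x : ℚ_[p])‖ ‖(Q.w : ℚ_[p])‖

theorem result (K : Type) [Fintype K] [DecidableEq K] (α β : K → ℤ) (hK : 6 ≤ Fintype.card K)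
    (hev : Even (Fintype.card K)) (hg : Generic α β) :
    (∃ C : ℝ, ∀ X : ℕ, 3 ≤ X →
      ({d : ℤ | d.natAbs ≤ X ∧ Squarefree d ∧ ¬ ∀ P : AdelicPoint α β d,
        Orthogonal P ↔ ∃ Q : Point α β d ℚ, Q.y = 0 ∧ SameEverywhere P Q}.ncard : ℝ) ≤
          C * X * (Real.log X) ^ (-(1 / 5 : ℝ))) ∧
    ∀ d : ℤ, Squarefree d → ∀ P : AdelicPoint α β d,
      (∀ (k l : K) (e : ℤ), e ≠ 0 → (ram (ratio P k l) e).Finite) ∧
      ∀ Q : Point α β d ℚ, SameEverywhere P Q → Orthogonal P ∧
        (Q.y = 0 → Joined P.re Q ∧ ∀ p : Nat.Primes, ((p : ℕ) : ℤ) ∣ d →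
          (∀ i k, i ≠ k → ¬ ((p : ℕ) : ℤ) ∣ det α β i k) → SameReduction (P.pa p) Q) := by
  classical
  have hK3 : 3 ≤ Fintype.card K := by omega
  have hne : ∀ i k, i ≠ k → Pool.Agent.W262.TW.cc α β i k ≠ 0 := hg.1
  -- values
  have hvne : ∀ {d : ℤ} {F : Type} [Field F] [CharZero F] (P : Point α β d F) (k : K), d ≠ 0 →
      value P k ≠ 0 := by
    intro d F _ _ P k hd
    exact Pool.Agent.TH213.SP.lval_ne hne hd P.ne k
  have horth : ∀ {d : ℤ}, d ≠ 0 → ∀ (P : AdelicPoint α β d) (Q : Point α β d ℚ),
      SameEverywhere P Q → Orthogonal P := by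
    intro d hd P Q hPQ k l e he
    refine (Pool.Agent.TH213.SP.ev_of_rat (a := ratio P k l) (u := value Q k * value Q l)
      (mul_ne_zero (hvne _ _ hd) (hvne _ _ hd))
      (fun p => mul_ne_zero (hvne _ _ hd) (hvne _ _ hd))
      (mul_ne_zero (hvne _ _ hd) (hvne _ _ hd)) ?_ (fun p => ?_) he).2
    · have h1 := hPQ.1 k l
      change IsSquare (value P.re k * value P.re l * ((value Q k * value Q l : ℚ) : ℝ))
      push_cast
      have e1 : value P.re k * value P.re l * (((value Q k : ℚ) : ℝ) * ((value Q l : ℚ) : ℝ)) =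
          value P.re k * ((value Q k : ℚ) : ℝ) * (value P.re l * ((value Q l : ℚ) : ℝ)) := by ring
      rw [e1]
      exact h1
    · have h1 := hPQ.2 p k l
      change IsSquare (value (P.pa p) k * value (P.pa p) l *
        ((value Q k * value Q l : ℚ) : ℚ_[(p : ℕ)]))
      push_cast
      have e1 : value (P.pa p) k * value (P.pa p) l *
          (((value Q k : ℚ) : ℚ_[(p : ℕ)]) * ((value Q l : ℚ) : ℚ_[(p : ℕ)])) =
          value (P.pa p) k * ((value Q k : ℚ) : ℚ_[(p : ℕ)]) *
            (value (P.pa p) l * ((value Q l : ℚ) : ℚ_[(p : ℕ)])) := by ring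
      rw [e1]
      exact h1
  refine ⟨?_, fun d hd P => ⟨fun k l e he => ?_, fun Q hPQ => ⟨horth hd.ne_zero P Q hPQ,
    fun hQ => ?_⟩⟩⟩
  · obtain ⟨C, hC⟩ := Pool.Agent.TH213.SP.finl α β hK hev hg
    refine ⟨C, fun X hX => le_trans ?_ (hC X hX)⟩
    refine Nat.cast_le.2 (Set.ncard_le_ncard ?_ (Pool.Agent.TH213.SP.fin_le X _))
    rintro d ⟨h1, h2, h3⟩
    refine ⟨h1, h2, ?_⟩
    by_contra hbad
    apply h3
    intro P
    have hd0 := h2.ne_zero
    refine ⟨fun hP => ?_, fun ⟨Q, _, hPQ⟩ => horth hd0 P Q hPQ⟩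
    obtain ⟨i, hi1, hi2⟩ := Pool.Agent.TH213.SP.type_of_orth (α := α) (β := β) hK3 hev hne hd0 hbad
      (xr := P.re.x) (wr := P.re.w) (yr := P.re.y) (xp := fun p => (P.pa p).x)
      (wp := fun p => (P.pa p).w) (yp := fun p => (P.pa p).y) P.re.ne P.re.eq
      (fun p => (P.pa p).ne) (fun p => (P.pa p).eq)
      (fun k => ⟨value P.re k, fun p => value (P.pa p) k⟩) (fun _ => rfl) (fun _ _ => rfl)
      (fun k l e he => hP k l e he)
    -- the Weierstrass point
    obtain ⟨k0, hk0⟩ : ∃ k, k ≠ i := by
      have : Nontrivial K := Fintype.one_lt_card_iff_nontrivial.mp (by omega)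
      exact exists_ne i
    have hform : ∀ k, (α k : ℚ) * (-(β i : ℚ)) + β k * (α i : ℚ) = det α β i k := by
      intro k
      simp only [det]
      push_cast
      ring
    have hdi : det α β i i = 0 := by
      simp only [det]
      ring
    have hQne : (-(β i : ℚ)) ≠ 0 ∨ (α i : ℚ) ≠ 0 := by
      by_contra h
      push Not at h
      have h4 := hform k0
      rw [h.1, h.2, mul_zero, mul_zero, add_zero] at h4
      have h5 : det α β i k0 = 0 := by exact_mod_cast h4.symm
      exact hg.1 i k0 (Ne.symm hk0) h5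
    have hQeq : (d : ℚ) * 0 ^ 2 = ∏ k, ((α k : ℚ) * (-(β i : ℚ)) + β k * (α i : ℚ)) := by
      rw [prod_eq_zero (mem_univ i) (by rw [hform, hdi]; norm_num)]
      ring
    set Q : Point α β d ℚ := ⟨-(β i : ℚ), (α i : ℚ), 0, hQne, hQeq⟩ with hQdef
    have hval : ∀ k, k ≠ i → value Q k = det α β i k := by
      intro k hk
      have h6 : form Q k = det α β i k := hform k
      have h7 : (det α β i k : ℚ) ≠ 0 := by exact_mod_cast hg.1 i k (Ne.symm hk)
      unfold value
      rw [if_pos (by rw [h6]; exact h7), h6]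
    have hQsq : IsSquare ((d : ℚ) * ∏ k, value Q k) :=
      Pool.Agent.TH213.SP.lval_sq hne Q.ne Q.eq
    have hsame : ∀ {F : Type} [Field F] [CharZero F] (R : Point α β d F),
        (∀ k l, k ≠ i → l ≠ i → IsSquare (value R k * (det α β i k : F) *
          (value R l * (det α β i l : F)))) → SameCovering R Q := by
      intro F _ _ R hR
      have hRsq : IsSquare ((d : F) * ∏ k, value R k) :=
        Pool.Agent.TH213.SP.lval_sq hne R.ne R.eq
      have hdF : (d : F) ≠ 0 := by exact_mod_cast hd0
      apply Pool.Agent.TH213.SP.same_of_type hev (a := fun k => value R k * ((value Q k : ℚ) : F))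
        (i := i)
      · intro k
        exact mul_ne_zero (hvne R k hd0) (by exact_mod_cast hvne Q k hd0)
      · apply Pool.Agent.TH213.SP.sq_of_mul_sq hdF
        obtain ⟨r, hr⟩ := hRsq
        obtain ⟨s, hs⟩ := hQsq
        refine ⟨r * (s : F), ?_⟩
        have hs' : (d : F) * ∏ k, ((value Q k : ℚ) : F) = s * s := by
          have := congrArg (fun q : ℚ => (q : F)) hs
          push_cast at this
          exact this
        rw [prod_mul_distrib]
        linear_combination ((d : F) * ∏ k, ((value Q k : ℚ) : F)) * hr + r * r * hs'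
      · intro k l hk hl
        have := hR k l hk hl
        simp only [hval k hk, hval l hl, Rat.cast_intCast]
        exact this
    exact ⟨Q, rfl, hsame P.re hi1, fun p => hsame (P.pa p) (hi2 p)⟩
  · obtain ⟨z, hz⟩ := Pool.Agent.TH213.SP.fin_even (α := α) (β := β) hK3 hev hne hd.ne_zero
    have h1 : {p : Nat.Primes | (p : ℕ) ≤ max z (max 2 e.natAbs)}.Finite := by
      have h2 : (Set.Iic (max z (max 2 e.natAbs))).Finite := Set.finite_Iic _
      exact h2.preimage (Subtype.val_injective.injOn)
    apply ((h1.image some).insert none).subset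
    intro v hv
    match v with
    | none => exact Or.inl rfl
    | some p =>
      refine Or.inr ⟨p, ?_, rfl⟩
      by_contra hpz
      have hpz' : max z (max 2 e.natAbs) < (p : ℕ) := not_le.1 hpz
      obtain ⟨m, c, hm, hc, hmc⟩ := hz (p : ℕ) (by omega) (P.pa p).x (P.pa p).w (P.pa p).y
        (P.pa p).ne (P.pa p).eq k l
      apply hv
      change Splits (value (P.pa p) k * value (P.pa p) l) _
      have hmc' : value (P.pa p) k * value (P.pa p) l = m * c ^ 2 := hmc
      rw [hmc', Pool.Agent.W313.BMX.splits_mul_sq hc]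
      refine Pool.Agent.W335.BMX.odd2 _ (by omega) m e hm ?_
      intro h
      have h3 := Int.natCast_dvd.1 h
      have := Nat.le_of_dvd (Int.natAbs_pos.2 he) h3
      omega
  · obtain ⟨i, c, hc, hx, hw, hlf⟩ := Pool.Agent.TH213.SP.weier (α := α) (β := β) hK3 hne Q.ne Q.eq hQ
    have hfi : form Q i = 0 := by
      have h1 : form Q i = c * Pool.Agent.W262.TW.cc α β i i := hlf i
      rw [h1]
      simp only [Pool.Agent.W262.TW.cc]
      push_cast
      ring
    have hval : ∀ k, k ≠ i → value Q k = form Q k := by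
      intro k hk
      have h6 : form Q k = c * Pool.Agent.W262.TW.cc α β i k := hlf k
      have h7 : (Pool.Agent.W262.TW.cc α β i k : ℚ) ≠ 0 := by exact_mod_cast hne i k (Ne.symm hk)
      unfold value
      rw [if_pos (by rw [h6]; exact mul_ne_zero hc h7)]
    constructor
    · obtain ⟨γ, g1, g2, ⟨c', hc', g3⟩, g4⟩ := Pool.Agent.TH213.SP.path_of_type (α := α) (β := β)
        hK3 hne hd.ne_zero P.re.ne P.re.eq (i := i) (a := (Q.x : ℝ)) (b := (Q.w : ℝ))
        (u := fun k => ((value Q k : ℚ) : ℝ)) (by
          have : ((form Q i : ℚ) : ℝ) = 0 := by rw [hfi]; norm_num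
          simp only [form] at this
          push_cast at this
          exact this)
        (fun k => by exact_mod_cast hvne Q k hd.ne_zero)
        (fun k hk => by
          simp only [hval k hk, form]
          push_cast
          rfl)
        (fun k l => hPQ.1 k l)
      refine ⟨γ, g1, g2, ⟨c', hc', ?_⟩, g4⟩
      rw [g3, hQ]
      simp
    · intro p hp hdet
      have h1 := Pool.Agent.TH213.SP.residue_of_type (α := α) (β := β) hK3 hev
        (p := (p : ℕ)) hdet hd hp (P.pa p).ne (P.pa p).eq hc (u := fun k => value Q k)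
        (fun k hk => by rw [hval k hk]; exact hlf k) (fun k l => hPQ.2 p k l)
      -- one of the coefficients is a unit
      have h2 : max ‖(β i : ℚ_[(p : ℕ)])‖ ‖(α i : ℚ_[(p : ℕ)])‖ = 1 := by
        apply le_antisymm (max_le (Padic.norm_int_le_one _) (Padic.norm_int_le_one _))
        by_contra h3
        push Not at h3
        obtain ⟨k, hk⟩ : ∃ k, k ≠ i := by
          have : Nontrivial K := Fintype.one_lt_card_iff_nontrivial.mp (by omega)
          exact exists_ne i
        have h4 := (max_lt_iff.1 h3).1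
        have h5 := (max_lt_iff.1 h3).2
        rw [Padic.norm_intCast_lt_one_iff] at h4 h5
        apply hdet i k (Ne.symm hk)
        simp only [det]
        exact dvd_sub (h5.mul_right _) (h4.mul_left _)
      have hcF : (c : ℚ_[(p : ℕ)]) ≠ 0 := by exact_mod_cast hc
      unfold SameReduction
      rw [hx, hw]
      push_cast
      have e1 : (P.pa p).x * ((c : ℚ_[(p : ℕ)]) * (α i : ℚ_[(p : ℕ)])) -
          -((c : ℚ_[(p : ℕ)]) * (β i : ℚ_[(p : ℕ)])) * (P.pa p).w =
          c * Pool.Agent.TH213.SP.lf α β (P.pa p).x (P.pa p).w i := by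
        simp only [Pool.Agent.TH213.SP.lf]
        ring
      rw [e1, norm_neg, norm_mul, norm_mul, norm_mul, ← mul_max_of_nonneg _ _ (norm_nonneg _), h2,
        mul_one, mul_comm]
      exact mul_lt_mul_of_pos_right h1 (norm_pos_iff.2 hcF)

end Pool.Agent.Results.MP_ab3ecb_nt.ApproximationOnTwists
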