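import Mathlib
import Pool.Agent.TH715.CN.Bm
import Pool.Agent.TH715.CN.Fin6

/-!
# Curves of every genus with empty Brauer-Manin set in thin families

Let `D` be a product of `m` different primes congruent to 3 modulo 8 and `b₁` a squarefree divisor
of `D`. For binary forms `F`, `G` of degree `n` with integer coefficients and without common zero
let `X` be the curve `y² = b₁ F(x, w)⁴ - (D² / b₁) G(x, w)⁴`; for `n = 1`, `F = x`, `G = w` it is a
curve of genus one, in general its genus is `2 n - 1`. Let `Q` be any set of primes congruent to 3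
modulo 8, at most `y`, with `|Q| ≥ y ^ (19 / 20)`. For at least five ninths of the subsets `T` of
`Q` with `m` elements, with `D` the product of the elements of `T`, there are exactly
`4 ^ (⌊(m - 1) / 2⌋ + 1) - 4` of the `b₁` for which the curve of genus one has points everywhere
locally and no rational point, and for each of them, all `n` and all `F`, `G` each adelic point of
`X` is obstructed by a class `(b₁ F² - D G², a)` of the Brauer group.
-/

set_option autoImplicit false

namespace Pool.Agent.Results.MP_ab3ecb_nt.EmptySetsEveryGenus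

open Finset

open Pool.Agent.W313.BMX (ram Fam)

open Pool.Agent.TH715.CN.ISO (Qu SQ Bad Pt AdPt val vals Obstr)

/-- the value of the binary form with the coefficients `α` -/
def fm {K : Type} [Field K] {n : ℕ} (α : Fin (n + 1) → ℤ) (x w : K) : K :=
  ∑ i : Fin (n + 1), (α i : K) * x ^ (i : ℕ) * w ^ (n - (i : ℕ))

/-- the two binary forms have no common zero over any field of characteristic zero -/
def NoCommonZero {n : ℕ} (α β : Fin (n + 1) → ℤ) : Prop :=
  ∀ (K : Type) [Field K] [CharZero K] (x w : K), fm α x w = 0 → fm β x w = 0 → x = 0 ∧ w = 0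

/-- a point over `K` of the curve `y² = b₁ F(x, w)⁴ - (D² / b₁) G(x, w)⁴` -/
structure PtX (K : Type) [Field K] (D b₁ : ℤ) {n : ℕ} (α β : Fin (n + 1) → ℤ) where
  /-- the first coordinate -/
  x : K
  /-- the second coordinate -/
  w : K
  /-- the third coordinate -/
  y : K
  ne : x ≠ 0 ∨ w ≠ 0
  eq : y ^ 2 = (b₁ : K) * fm α x w ^ 4 + ((-D ^ 2 / b₁ : ℤ) : K) * fm β x w ^ 4

/-- the image of the point on the curve of genus one -/
def PtX.toPt {K : Type} [Field K] [CharZero K] {D b₁ : ℤ} {n : ℕ} {α β : Fin (n + 1) → ℤ}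
    (h : NoCommonZero α β) (P : PtX K D b₁ α β) : Pt K D b₁ where
  M := fm α P.x P.w
  e := fm β P.x P.w
  N := P.y
  ne := by
    by_contra hcon
    push Not at hcon
    obtain ⟨h1, h2⟩ := h K P.x P.w hcon.1 hcon.2
    rcases P.ne with h3 | h3
    · exact h3 h1
    · exact h3 h2
  eq := P.eq

/-- an adelic point of the curve -/
structure AdX (D b₁ : ℤ) {n : ℕ} (α β : Fin (n + 1) → ℤ) where
  /-- the real component -/
  re : PtX ℝ D b₁ α β
  /-- the `p`-adic components -/
  pa : ∀ p : Nat.Primes, PtX ℚ_[(p : ℕ)] D b₁ α β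

/-- the values of `b₁ F² - D G²` at the components of an adelic point -/
noncomputable def valsX {D b₁ : ℤ} {n : ℕ} {α β : Fin (n + 1) → ℤ} (h : NoCommonZero α β)
    (P : AdX D b₁ α β) : Fam := ⟨val (P.re.toPt h), fun p => val ((P.pa p).toPt h)⟩

/-- for every `a ≠ 0` the local invariants of the class `(b₁ F² - D G², a)` at the components of an
adelic point are zero at almost all places, and for each adelic point there is an `a ≠ 0` for which
their sum is not zero -/
def Empty (D b₁ : ℤ) {n : ℕ} (α β : Fin (n + 1) → ℤ) (h : NoCommonZero α β) : Prop :=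
  ∀ P : AdX D b₁ α β, (∀ a : ℤ, a ≠ 0 → (ram (valsX h P) a).Finite) ∧
    ∃ a : ℤ, a ≠ 0 ∧ ¬ Even (ram (valsX h P) a).ncard

/-- there are exactly `4 ^ (k + 1) - 4` everywhere locally solvable curves `C_{b₁}` without rational
points, and for each of them each adelic point of each curve `X` is obstructed -/
def Expl (D : ℤ) (k : ℕ) : Prop := (Bad D).ncard + 4 = 4 ^ (k + 1) ∧
  ∀ b₁ ∈ Bad D, ∀ (n : ℕ) (α β : Fin (n + 1) → ℤ) (h : NoCommonZero α β), Empty D b₁ α β h

/-- the product of the elements of `T` -/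
def prd (T : Finset ℕ) : ℤ := ∏ q ∈ T, (q : ℤ)

/-- `C (m + 1) N ^ (-1 / 40)` -/
noncomputable def err (C : ℝ) (m N : ℕ) : ℝ := C * ((m : ℝ) + 1) * (N : ℝ) ^ (-(1 / 40) : ℝ)

/-- `Q` is a set of primes congruent to 3 modulo 8, at most `y`, with `|Q| ≥ y ^ (19 / 20)` -/
def IsThin (y : ℕ) (Q : Finset ℕ) : Prop :=
  (∀ q ∈ Q, q.Prime ∧ q % 8 = 3 ∧ q ≤ y) ∧ (y : ℝ) ^ (19 / 20 : ℝ) ≤ Q.card

/-- the property used in the proof -/
def Aux (T : Finset ℕ) : Prop := T.Nonempty → (∀ q ∈ T, q.Prime ∧ q % 8 = 3) →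
  Expl (prd T) ((T.card - 1) / 2)

open Classical in
/-- **Theorem.** There are `C ≥ 1` and `k` such that for all `m ≥ 1` and `y` and all sets `Q` of
primes congruent to 3 modulo 8, at most `y`, with `|Q| ≥ y ^ (19 / 20)` and
`|Q| ≥ C (m + 1) ^ k`, for at least `(5 / 9 - C (m + 1) |Q| ^ (-1 / 40)) binom(|Q|, m)` of the
subsets `T` of `Q` with `m` elements, with `D` the product of the elements of `T`, there are
exactly `4 ^ (⌊(m - 1) / 2⌋ + 1) - 4` of the `b₁` for which `C_{b₁}` has points everywhere locally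
and no rational points, and for each of them and all binary forms `F`, `G` of the same degree
without common zero every adelic point of `y² = b₁ F⁴ - (D² / b₁) G⁴` is obstructed by a class
`(b₁ F² - D G², a)`. -/
theorem result : ∃ (C : ℝ) (k : ℕ), 1 ≤ C ∧ ∀ (m y : ℕ) (Q : Finset ℕ), 1 ≤ m → IsThin y Q →
      C * ((m : ℝ) + 1) ^ k ≤ Q.card →
      (5 / 9 - err C m Q.card) * (Q.card.choose m : ℝ) ≤
        ((Q.powersetCard m).filter (fun T => Expl (prd T) ((m - 1) / 2))).card := by
  obtain ⟨C, k, hC, h⟩ := Pool.Agent.TH715.CN.majority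
  refine ⟨C, k, hC, ?_⟩
  intro m y Q hm hQ hmQ
  have h1 := h Aux (fun j x hx hp h8 hS hne hT => by
      obtain ⟨h2, h3⟩ := Pool.Agent.TH715.CN.sel_four hx hp h8 hS
      have e : ((∏ q ∈ univ.image x, q : ℕ) : ℤ) = ∏ q ∈ univ.image x, (q : ℤ) := by
        push_cast
        rfl
      rw [e] at h2 h3
      have hss : Pool.Agent.TH841.SH.SelG 0 (∏ q ∈ univ.image x, (q : ℤ))
          (-(∏ q ∈ univ.image x, (q : ℤ))) ⊆ Pool.Agent.W307.SE.Sel
          (∏ q ∈ univ.image x, (q : ℤ)) (-(∏ q ∈ univ.image x, (q : ℤ))) := by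
        have hsub : ∀ (K : Type) [Field K] (D d1 d2 : ℤ),
            Pool.Agent.TH841.SH.LocC K 0 D (-D) d1 d2 →
            Pool.Agent.W307.SE.Loc K D (-D) d1 d2 := by
          rintro K _ D d1 d2 ⟨x, y, hy, hxy, hs1, hs2⟩
          rw [Int.cast_zero, sub_zero] at hxy hs1
          exact ⟨x, y, hy, hxy, hs1, hs2⟩
        rintro d ⟨a1, a2, a3, a4⟩
        exact ⟨a1, a2, hsub ℝ _ _ _ a3, fun p _ => hsub ℚ_[p] _ _ _ (a4 p)⟩
      have h4 := Pool.Agent.TH715.CN.ISO.bad_of hT hne (h2.subset hss)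
        ((Set.ncard_le_ncard hss h2).trans h3)
      have hD : (∏ q ∈ univ.image x, (q : ℤ)) ≠ 0 := prod_ne_zero_iff.2 fun q hq =>
        by exact_mod_cast (hT q hq).1.ne_zero
      refine ⟨h4.1, fun b₁ hb n α β hαβ P => ?_⟩
      set R : AdPt (∏ q ∈ univ.image x, (q : ℤ)) b₁ :=
        ⟨P.re.toPt hαβ, fun p => (P.pa p).toPt hαβ⟩ with hR
      obtain ⟨a, ha, hobs⟩ := Pool.Agent.TH715.CN.ISO.obstr_of hD hb.1.1.ne_zero hb.1.2.1
        (h4.2 b₁ hb) R
      exact ⟨fun a ha => Pool.Agent.TH715.CN.ISO.ram_fin hD hb.1.1.ne_zero hb.1.2.1 R a ha,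
        a, ha, hobs.2⟩) m y Q hQ.1 hQ.2 hmQ
  refine h1.trans (Nat.cast_le.2 (card_le_card fun T hT => ?_))
  rw [mem_filter] at hT ⊢
  refine ⟨hT.1, ?_⟩
  have hTm := mem_powersetCard.1 hT.1
  have h5 := hT.2 (by rw [← card_pos, hTm.2]; omega) fun q hq =>
    ⟨(hQ.1 q (hTm.1 hq)).1, (hQ.1 q (hTm.1 hq)).2.1⟩
  rw [hTm.2] at h5
  exact h5

end Pool.Agent.Results.MP_ab3ecb_nt.EmptySetsEveryGenus
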