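import Pool.Agent.TH954.CM

/-!
# Adelic points on subvarieties of powers of an elliptic curve with complex multiplication

Let `E` be an elliptic curve over a number field `K`, with an endomorphism `α` over `K` that is not
an integer (so that `K` contains the field of complex multiplication and is totally complex). Let
`Γ` be a group of `K`-points of `E` which is stable under `α` and has rank at most two (rank at
most one over `ℤ[α]`), and let `X` be a closed subvariety of `Eⁿ`. A point of `X` over the product
of the completions (all finite places outside a finite set `G`) which lies in the closure of `Γⁿ`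
lies in the closure of `X(K) ∩ Γⁿ`.
-/

open IsDedekindDomain NumberField Pool.Agent.TH954

theorem Pool.Agent.Results.MP_ab3ecb_nt.PowersOfCMCurves.result
    (K : Type) [Field K] [NumberField K] [DecidableEq K]
    (E : WeierstrassCurve K) [E.IsElliptic]
    (h1 : E.a₁ = 0) (h2 : E.a₂ = 0) (h3 : E.a₃ = 0)
    (h4 : IsIntegral ℤ E.a₄) (h6 : IsIntegral ℤ E.a₆)
    (α : E.toAffine.Point →+ E.toAffine.Point)
    (F : Fin 3 → MvPolynomial (Fin 3) K) (hF : EndoForms E α F)
    (t m : ℤ) (htm : t ^ 2 < 4 * m) (hrel : ∀ T, α (α T) - t • α T + m • T = 0)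
    (Γ : AddSubgroup E.toAffine.Point) (hα : ∀ T ∈ Γ, α T ∈ Γ) (hΓ : Module.rank ℤ Γ ≤ 2)
    (n : ℕ) (S : Set (MvPolynomial (Fin n × Fin 3) K)) (hS : ∀ f ∈ S, ∃ d, MultiHom d f)
    (G : Set (HeightOneSpectrum (𝓞 K))) (hG : G.Finite) :
    {x ∈ adelicClosure (E := E) G {y | ∀ i, y i ∈ Γ} | ∀ v, OnX S (fun i => crd (x v i))} =
    adelicClosure (E := E) G {y | (∀ i, y i ∈ Γ) ∧ OnX S (fun i => crd (y i))} :=
  cm_main E h1 h2 h3 h4 h6 α F hF t m htm hrel Γ hα hΓ n S hS G hG
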